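import Pool.Agent.H937.QS.Stm3

/-!
# Task FAMD of project QS (helper800, for helper937)
-/

set_option autoImplicit false

open scoped Matrix TensorProduct
open Pool.Agent.H937.QS
universe u
namespace Pool.Agent.H800.QS.FAMD

/-- values are in the valuation ring -/
theorem ev_mem {k B M : Type u} [Field k] [CommRing B] [Algebra k B] [Field M] [Algebra k M]
    {n : ℕ} (ev : B →ₐ[k] (Fin n → M)) (V : ValuationSubring M) (hV : ∀ x ∈ Esym k ev, x ∈ V)
    (b : B) (q : Fin n) : ev b q ∈ V := by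
  set P : Polynomial M := ∏ q, (Polynomial.X - Polynomial.C (ev b q)) with hP
  have hmon : P.Monic := Polynomial.monic_prod_of_monic _ _ fun q _ => Polynomial.monic_X_sub_C _
  have hroot : P.eval (ev b q) = 0 := by
    rw [hP, Polynomial.eval_prod]
    apply Finset.prod_eq_zero (Finset.mem_univ q)
    rw [Polynomial.eval_sub, Polynomial.eval_X, Polynomial.eval_C, sub_self]
  have hlift : P ∈ Polynomial.lifts (algebraMap V M) := by
    rw [Polynomial.lifts_iff_coeff_lifts]
    intro m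
    refine ⟨⟨P.coeff m, hV _ (Algebra.subset_adjoin ⟨b, m, rfl⟩)⟩, rfl⟩
  obtain ⟨Q, hQ, -, hQm⟩ := Polynomial.lifts_and_natDegree_eq_and_monic hlift hmon
  have hint : IsIntegral V (ev b q) := by
    refine ⟨Q, hQm, ?_⟩
    rw [← Polynomial.eval_map, hQ]
    exact hroot
  obtain ⟨y, hy⟩ := (IsIntegrallyClosed.isIntegral_iff (R := V) (K := M)).1 hint
  rw [← hy]
  exact y.2

section lemmas

variable {L : Type u} [Field L] {d : ℕ}

/-- the determinant of a family of functions -/
def dt (X : Fin (d + 1) → Fin (d + 1) → L) : L := (Matrix.of fun q i => X i q).det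

theorem div_mem_iff (V : ValuationSubring L) {x y : L} (hy : y ≠ 0) :
    x / y ∈ V ↔ V.valuation x ≤ V.valuation y := by
  rw [← V.valuation_le_one_iff, map_div₀, div_le_one₀ (zero_lt_iff.2 ((map_ne_zero _).2 hy))]

theorem det_expand {n : ℕ} (w : Fin (n + 1) → Fin (d + 1) → L) (c : Fin (d + 1) → Fin (n + 1) → L) :
    dt (fun i => ∑ l, c i l • w l) =
      ∑ r : Fin (d + 1) → Fin (n + 1), (∏ i, c i (r i)) * dt (fun i => w (r i)) := by
  have h1 : ∀ X : Fin (d + 1) → Fin (d + 1) → L, dt X =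
      (Matrix.detRowAlternating (R := L) (n := Fin (d + 1))).toMultilinearMap X := by
    intro X
    rw [dt, ← Matrix.det_transpose]
    rfl
  rw [h1 fun i => ∑ l, c i l • w l,
    (Matrix.detRowAlternating (R := L) (n := Fin (d + 1))).toMultilinearMap.map_sum]
  refine Finset.sum_congr rfl fun r _ => ?_
  rw [MultilinearMap.map_smul_univ, smul_eq_mul, h1]

/-- Cramer's rule. -/
theorem cramer (N : Matrix (Fin (d + 1)) (Fin (d + 1)) L) (hN : N.det ≠ 0) (f : Fin (d + 1) → L)
    (m : Fin (d + 1)) : N.det * (N⁻¹ *ᵥ f) m = (N.updateCol m f).det := by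
  have h1 := congrFun (Matrix.det_smul_inv_mulVec_eq_cramer N f (isUnit_iff_ne_zero.2 hN)) m
  rw [Matrix.cramer_apply] at h1
  exact h1

theorem mul_co (N : Matrix (Fin (d + 1)) (Fin (d + 1)) L) (hN : N.det ≠ 0) (f : Fin (d + 1) → L) :
    N *ᵥ (N⁻¹ *ᵥ f) = f := by
  rw [Matrix.mulVec_mulVec, Matrix.mul_nonsing_inv _ (isUnit_iff_ne_zero.2 hN), Matrix.one_mulVec]

theorem upd (W : Fin (d + 1) → Fin (d + 1) → L) (r : Fin (d + 1)) (f : Fin (d + 1) → L) :
    ((Matrix.of fun q i => W i q).updateCol r f).det = dt (Function.update W r f) := by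
  unfold dt
  congr 1
  ext q j
  rw [Matrix.updateCol_apply, Matrix.of_apply, Matrix.of_apply]
  by_cases h : j = r
  · rw [if_pos h, h, Function.update_self]
  · rw [if_neg h, Function.update_of_ne h]

/-- the quotient of two determinants -/
theorem dt_div (N : Matrix (Fin (d + 1)) (Fin (d + 1)) L)
    (X : Fin (d + 1) → Fin (d + 1) → L) : dt X / N.det = dt (fun r => N⁻¹ *ᵥ X r) := by
  have h1 : (Matrix.of fun q i => (fun r => N⁻¹ *ᵥ X r) i q) = N⁻¹ * Matrix.of fun q i => X i q := by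
    ext q i
    rfl
  rw [dt, dt, h1, Matrix.det_mul, Matrix.det_nonsing_inv, Ring.inverse_eq_inv', div_eq_inv_mul]

theorem dt_mem {k : Type u} [Field k] [Algebra k L] (C : Subalgebra k L)
    (X : Fin (d + 1) → Fin (d + 1) → L) (hX : ∀ r i, X r i ∈ C) : dt X ∈ C := by
  rw [dt, Matrix.det_apply]
  refine C.sum_mem fun σ _ => ?_
  rw [Units.smul_def, zsmul_eq_mul]
  refine C.mul_mem (C.intCast_mem _) (C.prod_mem fun i _ => ?_)
  exact hX _ _

theorem dt_scale (X : Fin (d + 1) → Fin (d + 1) → L) (v : Fin (d + 1) → L) :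
    dt (fun r i => v r * X r i) = (∏ r, v r) * dt X := by
  rw [dt, dt, ← Matrix.det_mul_row]
  rfl

end lemmas

/-- the product of the values is symmetric -/
theorem nu_mem {k B M : Type u} [Field k] [CommRing B] [Algebra k B] [Field M] [Algebra k M]
    {n : ℕ} (ev : B →ₐ[k] (Fin n → M)) (u : B) : ∏ q, ev u q ∈ Esym k ev := by
  have h1 : (∏ q, (Polynomial.X - Polynomial.C (ev u q))).coeff 0 ∈ Esym k ev :=
    Algebra.subset_adjoin ⟨u, 0, rfl⟩
  rw [Polynomial.coeff_zero_eq_eval_zero, Polynomial.eval_prod] at h1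
  have h2 : ∏ q, Polynomial.eval 0 (Polynomial.X - Polynomial.C (ev u q)) =
      (-1) ^ n * ∏ q, ev u q := by
    rw [show ((-1 : M)) ^ n = ∏ _q : Fin n, (-1 : M) by simp, ← Finset.prod_mul_distrib]
    refine Finset.prod_congr rfl fun q _ => ?_
    rw [Polynomial.eval_sub, Polynomial.eval_X, Polynomial.eval_C]
    ring
  rw [h2] at h1
  have h3 : ∏ q, ev u q = (-1) ^ n * ((-1) ^ n * ∏ q, ev u q) := by
    rw [← mul_assoc, ← mul_pow]
    simp
  rw [h3]
  exact (Esym k ev).mul_mem ((Esym k ev).pow_mem ((Esym k ev).neg_mem (Esym k ev).one_mem) _) h1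

section main

variable {k B M : Type u} [Field k] [CommRing B] [Algebra k B] [Field M] [Algebra k M]
  {d n : ℕ} (ev : B →ₐ[k] (Fin (d + 1) → M)) (w : Fin (n + 1) → B)

/-- the determinants of the family -/
def de (h : Fin (d + 1) → Fin (n + 1)) : M := dt fun r => ev (w (h r))

theorem cover (V : ValuationSubring M) (hV : ∀ x ∈ Esym k ev, x ∈ V) (hw0 : w 0 = 1)
    (hw : ∀ b, ∃ c : Fin (n + 1) → M, (∀ l, c l ∈ Esym k ev) ∧
      ∀ q, ev b q = ∑ l, c l * ev (w l) q)
    (b0 : B) (hb0 : Function.Injective fun q => ev b0 q) :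
    ∃ h : Fin (d + 1) → Fin (n + 1), h 0 = 0 ∧ de ev w h ≠ 0 ∧
      ∀ h', V.valuation (de ev w h') ≤ V.valuation (de ev w h) := by
  obtain ⟨r0, hr0⟩ := Finite.exists_max
    (fun r : Fin (d + 1) → Fin (n + 1) => V.valuation (de ev w r))
  have hne : de ev w r0 ≠ 0 := by
    intro h
    have hall : ∀ h', de ev w h' = 0 := by
      intro h'
      have h1 := hr0 h'
      rw [h, map_zero] at h1
      exact (map_eq_zero V.valuation).1 (le_antisymm h1 zero_le)
    choose c _ hc2 using fun i : Fin (d + 1) => hw (b0 ^ (i : ℕ))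
    have h2 : dt (fun i : Fin (d + 1) => ev (b0 ^ (i : ℕ))) = 0 := by
      have h3 : (fun i : Fin (d + 1) => ev (b0 ^ (i : ℕ))) =
          fun i => ∑ l, c i l • (fun l => ev (w l)) l := by
        funext i q
        rw [hc2 i q, Finset.sum_apply]
        rfl
      rw [h3, det_expand]
      refine Finset.sum_eq_zero fun r _ => ?_
      have h4 : dt (fun i => (fun l => ev (w l)) (r i)) = 0 := hall r
      rw [h4, mul_zero]
    have h5 : dt (fun i : Fin (d + 1) => ev (b0 ^ (i : ℕ))) =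
        (Matrix.vandermonde fun q => ev b0 q).det := by
      unfold dt
      congr 1
      ext q i
      rw [Matrix.of_apply, Matrix.vandermonde_apply]
      show ev (b0 ^ (i : ℕ)) q = ev b0 q ^ (i : ℕ)
      rw [map_pow]
      rfl
    rw [h5] at h2
    exact Matrix.det_vandermonde_ne_zero_iff.2 hb0 h2
  set W : Matrix (Fin (d + 1)) (Fin (d + 1)) M := Matrix.of fun q i => ev (w (r0 i)) q with hW
  have hWd : W.det = de ev w r0 := rfl
  have hWne : W.det ≠ 0 := hne
  obtain ⟨r, hr⟩ : ∃ r, 1 ≤ V.valuation ((W⁻¹ *ᵥ (1 : Fin (d + 1) → M)) r) := by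
    by_contra hcon
    push Not at hcon
    have h1 := congrFun (mul_co W hWne (1 : Fin (d + 1) → M)) 0
    have h2 : (W *ᵥ (W⁻¹ *ᵥ (1 : Fin (d + 1) → M))) 0 =
      ∑ j, W 0 j * (W⁻¹ *ᵥ (1 : Fin (d + 1) → M)) j := rfl
    have h3 : V.valuation (∑ j, W 0 j * (W⁻¹ *ᵥ (1 : Fin (d + 1) → M)) j) < 1 := by
      refine Valuation.map_sum_lt' _ zero_lt_one fun j _ => ?_
      rw [map_mul]
      have h4 : V.valuation (W 0 j) ≤ 1 := (V.valuation_le_one_iff _).2 (ev_mem ev V hV _ _)
      calc V.valuation (W 0 j) * V.valuation ((W⁻¹ *ᵥ (1 : Fin (d + 1) → M)) j)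
          ≤ 1 * V.valuation ((W⁻¹ *ᵥ (1 : Fin (d + 1) → M)) j) := mul_le_mul_left h4 _
        _ = V.valuation ((W⁻¹ *ᵥ (1 : Fin (d + 1) → M)) j) := one_mul _
        _ < 1 := hcon j
    rw [← h2, h1, Pi.one_apply, map_one] at h3
    exact lt_irrefl _ h3
  let σ : Equiv.Perm (Fin (d + 1)) := Equiv.swap 0 r
  let r1 : Fin (d + 1) → Fin (n + 1) := Function.update r0 r 0
  let r2 : Fin (d + 1) → Fin (n + 1) := fun j => r1 (σ j)
  have hr20 : r2 0 = 0 := by
    show Function.update r0 r 0 (Equiv.swap 0 r 0) = 0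
    rw [Equiv.swap_apply_left, Function.update_self]
  have hd1 : V.valuation (de ev w r0) ≤ V.valuation (de ev w r1) := by
    have h1 := cramer W hWne (1 : Fin (d + 1) → M) r
    rw [hW, upd] at h1
    have h2 : Function.update (fun i => ev (w (r0 i))) r (1 : Fin (d + 1) → M) =
        fun i => ev (w (r1 i)) := by
      funext i
      by_cases hi : i = r
      · rw [hi, Function.update_self]
        show (1 : Fin (d + 1) → M) = ev (w (Function.update r0 r 0 r))
        rw [Function.update_self, hw0, map_one]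
      · rw [Function.update_of_ne hi]
        show ev (w (r0 i)) = ev (w (Function.update r0 r 0 i))
        rw [Function.update_of_ne hi]
    rw [h2] at h1
    have h3 : de ev w r1 = W.det * (W⁻¹ *ᵥ (1 : Fin (d + 1) → M)) r := h1.symm
    rw [h3, map_mul, ← hWd]
    exact le_mul_of_one_le_right' hr
  have hd2 : V.valuation (de ev w r2) = V.valuation (de ev w r1) := by
    have h1 := Matrix.det_permute' σ (Matrix.of fun q j => ev (w (r1 j)) q)
    have h2 : (Matrix.of fun q j => ev (w (r1 j)) q).submatrix id σ =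
      Matrix.of fun q j => ev (w (r2 j)) q := rfl
    rw [h2] at h1
    have h3 : de ev w r2 = (Matrix.of fun q j => ev (w (r2 j)) q).det := rfl
    have h4 : de ev w r1 = (Matrix.of fun q j => ev (w (r1 j)) q).det := rfl
    rw [h3, h4, h1, map_mul]
    rcases Int.units_eq_one_or (Equiv.Perm.sign σ) with h | h
    · rw [h]
      simp
    · rw [h]
      simp
  have hd3 : V.valuation (de ev w r0) ≤ V.valuation (de ev w r2) := by
    rw [hd2]
    exact hd1
  refine ⟨r2, hr20, ?_, fun r => (hr0 r).trans hd3⟩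
  intro h
  rw [h, map_zero] at hd3
  exact hne ((map_eq_zero V.valuation).1 (le_antisymm hd3 zero_le))

/-- the members of the family -/
def zz (i : (Fin (d + 1) → Fin (n + 1)) × (Fin (d + 1) → Fin (n + 1))) : M :=
  de ev w i.1 * de ev w i.2

/-- the chart algebra -/
theorem chart (hNORM : S_NORM.{u})
    (hw : ∀ b, ∃ c : Fin (n + 1) → M, (∀ l, c l ∈ Esym k ev) ∧
      ∀ q, ev b q = ∑ l, c l * ev (w l) q)
    (h : Fin (d + 1) → Fin (n + 1)) (hne : de ev w h ≠ 0)
    (N : Matrix (Fin (d + 1)) (Fin (d + 1)) M) (hN : N = Matrix.of fun q i => ev (w (h i)) q) :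
    (Esym k ev ⊔ Algebra.adjoin k (Set.range fun i => zz ev w i / zz ev w (h, h)) :
      Subalgebra k M) = Algebra.adjoin k {z : M | ∃ b i, z = (N⁻¹ *ᵥ ev b) i} := by
  have hNd : N.det = de ev w h := by rw [hN]; rfl
  have hNne : N.det ≠ 0 := by rw [hNd]; exact hne
  set C : Subalgebra k M := Algebra.adjoin k {z : M | ∃ b i, z = (N⁻¹ *ᵥ ev b) i} with hC
  have hcoC : ∀ b i, (N⁻¹ *ᵥ ev b) i ∈ C := fun b i => Algebra.subset_adjoin ⟨b, i, rfl⟩
  have hEC : Esym k ev ≤ C := by
    have h1 := hNORM k B M (d + 1) ev (fun i => w (h i)) hne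
    rw [← hN] at h1
    exact h1
  have hquot : ∀ h', de ev w h' / de ev w h ∈ C := by
    intro h'
    rw [← hNd]
    have h1 := dt_div N (fun r => ev (w (h' r)))
    have h2 : de ev w h' = dt fun r => ev (w (h' r)) := rfl
    rw [h2, h1]
    exact dt_mem C _ fun r i => hcoC _ _
  refine le_antisymm (sup_le hEC (Algebra.adjoin_le ?_)) (Algebra.adjoin_le ?_)
  · rintro _ ⟨i, rfl⟩
    show zz ev w i / zz ev w (h, h) ∈ C
    have h1 : zz ev w i / zz ev w (h, h) =
        (de ev w i.1 / de ev w h) * (de ev w i.2 / de ev w h) := by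
      rw [zz, zz, div_mul_div_comm]
    rw [h1]
    exact C.mul_mem (hquot _) (hquot _)
  · rintro _ ⟨b, r, rfl⟩
    set D : Subalgebra k M := Esym k ev ⊔ Algebra.adjoin k
      (Set.range fun i => zz ev w i / zz ev w (h, h)) with hD
    show (N⁻¹ *ᵥ ev b) r ∈ D
    obtain ⟨c, hc, hc2⟩ := hw b
    have h1 : ev b = ∑ l, c l • ev (w l) := by
      funext q
      rw [hc2 q, Finset.sum_apply]
      rfl
    have h2 : N⁻¹ *ᵥ ev b = ∑ l, c l • (N⁻¹ *ᵥ ev (w l)) := by
      rw [h1, Matrix.mulVec_sum]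
      refine Finset.sum_congr rfl fun l _ => ?_
      rw [Matrix.mulVec_smul]
    rw [h2, Finset.sum_apply]
    refine D.sum_mem fun l _ => ?_
    rw [Pi.smul_apply, smul_eq_mul]
    refine D.mul_mem ((le_sup_left : Esym k ev ≤ D) (hc l)) ?_
    have h3 := cramer N hNne (ev (w l)) r
    rw [hN, upd, ← hN, hNd] at h3
    have h4 : Function.update (fun i => ev (w (h i))) r (ev (w l)) =
        fun i => ev (w (Function.update h r l i)) := by
      funext i
      by_cases hi : i = r
      · rw [hi, Function.update_self, Function.update_self]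
      · rw [Function.update_of_ne hi, Function.update_of_ne hi]
    rw [h4] at h3
    have h5 : (N⁻¹ *ᵥ ev (w l)) r = zz ev w (Function.update h r l, h) / zz ev w (h, h) := by
      show _ = (de ev w (Function.update h r l) * de ev w h) / (de ev w h * de ev w h)
      rw [mul_div_mul_right _ _ hne, eq_div_iff hne, mul_comm]
      exact h3
    rw [h5]
    refine (le_sup_right : Algebra.adjoin k
      (Set.range fun i => zz ev w i / zz ev w (h, h)) ≤ D) (Algebra.subset_adjoin ?_)
    exact ⟨(Function.update h r l, h), rfl⟩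

end main

theorem t_FAMD (hTRC : S_TRC.{u}) (hLOCC : S_LOCC.{u}) (hSPAN : S_SPAN.{u}) (hNORM : S_NORM.{u}) :
    S_FAMD.{u} := by
  intro k B M _ _ _ _ _ _ d ev hch b0 hb0
  obtain ⟨n, w, hw0, hw⟩ := hSPAN k B M (d + 1) ev
  refine ⟨(Fin (d + 1) → Fin (n + 1)) × (Fin (d + 1) → Fin (n + 1)), inferInstance, zz ev w,
    {i | i.1 = i.2 ∧ i.1 0 = 0}, ?_, ?_, ?_, ?_, ?_⟩
  · intro i
    exact (hTRC k B M).1 (d + 1) ev (fun r => w (i.1 r)) (fun r => w (i.2 r))
  · intro i
    exact ⟨fun r => ev (w (i.1 r)), fun r => ev (w (i.2 r)), fun r => ⟨_, rfl⟩, fun r => ⟨_, rfl⟩,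
      rfl⟩
  · intro V hV
    obtain ⟨h, h0, hne, hmax⟩ := cover ev w V hV hw0 hw b0 hb0
    refine ⟨(h, h), ⟨rfl, h0⟩, mul_ne_zero hne hne, fun i => ?_⟩
    have h1 : zz ev w i / zz ev w (h, h) =
        (de ev w i.1 / de ev w h) * (de ev w i.2 / de ev w h) := by
      rw [zz, zz, div_mul_div_comm]
    rw [h1]
    exact V.mul_mem _ _ ((div_mem_iff V hne).2 (hmax _)) ((div_mem_iff V hne).2 (hmax _))
  · rintro ⟨h, h'⟩ ⟨hh, h0⟩ hz
    have hh' : h = h' := hh
    subst hh'
    have hne : de ev w h ≠ 0 := fun h1 => hz (by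
      show de ev w h * de ev w h = 0
      rw [h1, mul_zero])
    have h2 := hch (fun i => w (h i)) (by
      show w (h 0) = 1
      have h3 : h 0 = 0 := h0
      rw [h3, hw0]) (Matrix.of fun q i => ev (w (h i)) q) (fun q i => rfl) hne
    rw [← chart ev w hNORM hw h hne _ rfl] at h2
    exact h2
  · rintro ⟨h, h'⟩ ⟨hh, h0⟩ hz u hu ζ ⟨X, X', hX, hX', rfl⟩
    have hh' : h = h' := hh
    subst hh'
    have hne : de ev w h ≠ 0 := fun h1 => hz (by
      show de ev w h * de ev w h = 0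
      rw [h1, mul_zero])
    rw [chart ev w hNORM hw h hne _ rfl]
    obtain ⟨N, hN⟩ : ∃ N : Matrix (Fin (d + 1)) (Fin (d + 1)) M,
      N = Matrix.of fun q i => ev (w (h i)) q := ⟨_, rfl⟩
    rw [← hN]
    have hNd : N.det = de ev w h := by rw [hN]; rfl
    have hNne : N.det ≠ 0 := by rw [hNd]; exact hne
    set C : Subalgebra k M := Algebra.adjoin k {z : M | ∃ b i, z = (N⁻¹ *ᵥ ev b) i} with hC
    have hcoC : ∀ b i, (N⁻¹ *ᵥ ev b) i ∈ C := fun b i => Algebra.subset_adjoin ⟨b, i, rfl⟩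
    have hloc := hLOCC k B M (d + 1) ev (fun i => w (h i)) N (fun q i => by rw [hN]; rfl) hNne C
      hcoC u hu
    have key : ∀ X : Fin (d + 1) → Fin (d + 1) → M, (∀ i, X i ∈ LocF ev u) →
        ∃ e : ℕ, (∏ q, ev u q) ^ e * (dt X / N.det) ∈ C := by
      intro X hX
      choose e he using fun i => hloc (X i) (hX i)
      refine ⟨∑ i, e i, ?_⟩
      rw [dt_div N, ← Finset.prod_pow_eq_pow_sum, ← dt_scale]
      exact dt_mem C _ fun r i => he r i
    obtain ⟨e, he⟩ := key X hX
    obtain ⟨e', he'⟩ := key X' hX'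
    refine ⟨e + e', ?_⟩
    have h1 : (∏ q, ev u q) ^ (e + e') * ((Matrix.of fun q i => X i q).det *
        (Matrix.of fun q i => X' i q).det / zz ev w (h, h)) =
        ((∏ q, ev u q) ^ e * (dt X / N.det)) * ((∏ q, ev u q) ^ e' * (dt X' / N.det)) := by
      rw [zz, ← hNd, pow_add]
      show (∏ q, ev u q) ^ e * (∏ q, ev u q) ^ e' * (dt X * dt X' / (N.det * N.det)) = _
      rw [← div_mul_div_comm]
      ring
    rw [h1]
    exact C.mul_mem he he'

end Pool.Agent.H800.QS.FAMD
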